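import Pool.Agent.helper82.T6.SpecL2

set_option autoImplicit false

/-!
# T6, row DA
-/

namespace Pool.Agent.T6

open Finset Pool.Agent.helper3.FT

theorem DA_fact (j d : ℕ) :
    (prt j d).factorization = d.factorization.filter (fun p => Nat.log 2 p < j) := by
  have h : prt j d = (d.factorization.filter (fun p => Nat.log 2 p < j)).prod (· ^ ·) := by
    unfold prt
    rw [Finsupp.prod, Finsupp.support_filter, Nat.support_factorization]
    apply Finset.prod_congr rfl
    intro p hp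
    rw [Finset.mem_filter] at hp
    rw [Finsupp.filter_apply, if_pos hp.2]
  rw [h]
  apply Nat.prod_pow_factorization_eq_self
  intro p hp
  rw [Finsupp.support_filter, Finset.mem_filter, Nat.support_factorization] at hp
  exact Nat.prime_of_mem_primeFactors hp.1

theorem DA_pos (j d : ℕ) : 1 ≤ prt j d := by
  unfold prt
  apply Nat.one_le_iff_ne_zero.2
  apply Finset.prod_ne_zero_iff.2
  intro p hp
  rw [Finset.mem_filter] at hp
  exact pow_ne_zero _ (Nat.prime_of_mem_primeFactors hp.1).ne_zero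

theorem DA_dvd (j d : ℕ) (hd : d ≠ 0) : prt j d ∣ d := by
  rw [← Nat.factorization_le_iff_dvd (Nat.one_le_iff_ne_zero.1 (DA_pos j d)) hd, DA_fact]
  intro p
  by_cases h : Nat.log 2 p < j
  · rw [Finsupp.filter_apply, if_pos h]
  · rw [Finsupp.filter_apply, if_neg h]
    exact Nat.zero_le _

/-- a prime of `prt j d` is in a block `< j` -/
theorem DA_lt (j d p : ℕ) (hp : p.Prime) (h : p ∣ prt j d) : Nat.log 2 p < j := by
  by_contra hc
  have h1 : (prt j d).factorization p = 0 := by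
    rw [DA_fact, Finsupp.filter_apply, if_neg hc]
  have h2 := (hp.dvd_iff_one_le_factorization (Nat.one_le_iff_ne_zero.1 (DA_pos j d))).1 h
  omega

/-- a prime of `d / prt j d` is in a block `≥ j` -/
theorem DA_ge (j d h k p : ℕ) (hd : d ≠ 0) (hk : d = prt j d * h * k) (hp : p.Prime) (hph : p ∣ h) :
    j ≤ Nat.log 2 p := by
  by_contra hc
  rw [not_le] at hc
  have hq := Nat.one_le_iff_ne_zero.1 (DA_pos j d)
  have hh : h ≠ 0 := by
    rintro rfl
    apply hd
    rw [hk]
    simp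
  have hk0 : k ≠ 0 := by
    rintro rfl
    apply hd
    rw [hk]
    simp
  have h1 : (prt j d).factorization p = d.factorization p := by
    rw [DA_fact, Finsupp.filter_apply, if_pos hc]
  have h2 : d.factorization p = (prt j d).factorization p + h.factorization p +
      k.factorization p := by
    have e : (prt j d * h * k).factorization p = (prt j d).factorization p + h.factorization p +
        k.factorization p := by
      rw [Nat.factorization_mul (mul_ne_zero hq hh) hk0, Nat.factorization_mul hq hh]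
      simp
    rw [← e, ← hk]
  have h3 := (hp.dvd_iff_one_le_factorization hh).1 hph
  omega

theorem DA_vv (b : ℝ) (d r : ℕ) (h : Gd b d r) :
    InG d r (vv b d r) ∧ nrm b (vv b d r) = lamb b d r ∧ RV (vv b d r) ≠ 0 := by
  unfold vv
  rw [dif_pos h]
  exact h.choose_spec

/-- the membership facts for an element of `SU` -/
theorem DA_SU (b : ℝ) (y u : ℕ) (s : ℝ) (p : ℕ × ℕ) (h : p ∈ SU b y u s) :
    2 ^ u ≤ p.1 ∧ p.1 < 2 ^ (u + 1) ∧ p.2 < p.1 ∧ Nat.Coprime p.2 p.1 ∧ Rgh y p.1 ∧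
      Gd b p.1 p.2 := by
  classical
  unfold SU PR at h
  rw [Finset.mem_filter, Finset.mem_filter, Finset.mem_product, Finset.mem_Ico] at h
  exact ⟨h.1.1.1.1, h.1.1.1.2, h.1.2.1, h.1.2.2.1, h.1.2.2.2, h.2.1⟩

theorem DA_j0 (K i : ℕ) : j0 K i ≤ i := Nat.div_le_self _ _

theorem DA_Rprt (y j d : ℕ) (hd : d ≠ 0) (h : Rgh y d) : Rgh y (prt j d) := by
  intro p hp hpd
  exact h p hp (hpd.trans (DA_dvd j d hd))

/-- the number `(d / l) q'` is in `DH` -/
theorem DA_mem (y u i j d l q' : ℕ) (h1 : 2 ^ u ≤ d) (h2 : d < 2 ^ (u + 1)) (hR : Rgh y d)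
    (hl : l.Prime) (hld : l ∣ d) (hli : Nat.log 2 l = i) (hji : j ≤ i) (hq' : 1 ≤ q')
    (hRq : Rgh y q') : d / l * q' ∈ DH y u i j (prt j d) q' := by
  classical
  have hd0 : d ≠ 0 := by
    have := Nat.one_le_two_pow (n := u)
    omega
  obtain ⟨c, hc⟩ := hld
  have hc' : d / l = c := by
    rw [hc]
    exact Nat.mul_div_cancel_left _ hl.pos
  have hc0 : c ≠ 0 := by
    rintro rfl
    apply hd0
    rw [hc]
    simp
  have hcd : c ∣ d := ⟨l, by rw [hc]; ring⟩
  have hlge : 2 ^ i ≤ l := by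
    rw [← hli]
    exact Nat.pow_log_le_self 2 hl.ne_zero
  have hllt : l < 2 ^ (i + 1) := by
    rw [← hli]
    exact Nat.lt_pow_succ_log_self (by norm_num) l
  have hcop : Nat.Coprime (prt j d) l := by
    rw [Nat.coprime_comm]
    refine (Nat.Prime.coprime_iff_not_dvd hl).2 ?_
    intro hh
    have := DA_lt j d l hl hh
    omega
  have hqc : prt j d ∣ c := by
    have h5 : prt j d ∣ l * c := by
      rw [← hc]
      exact DA_dvd j d hd0
    exact hcop.dvd_of_dvd_mul_left h5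
  obtain ⟨h, hh⟩ := hqc
  unfold DH
  rw [Finset.mem_filter, Finset.mem_range, hc']
  have hcpos : 0 < c := Nat.pos_of_ne_zero hc0
  have e1 : 2 ^ i * c ≤ d := by
    rw [hc]
    exact Nat.mul_le_mul_right _ hlge
  have e2 : d < 2 ^ (i + 1) * c := by
    rw [hc]
    exact Nat.mul_lt_mul_of_pos_right hllt hcpos
  refine ⟨?_, ?_, Nat.mul_pos hcpos hq', ⟨h, ?_, ?_⟩, ?_, ?_⟩
  · apply Nat.mul_lt_mul_of_pos_right _ hq'
    exact lt_of_le_of_lt (Nat.le_of_dvd (Nat.pos_of_ne_zero hd0) hcd) h2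
  · intro p hp hpd
    rcases (Nat.Prime.dvd_mul hp).1 hpd with h3 | h3
    · exact hR p hp (h3.trans hcd)
    · exact hRq p hp h3
  · rw [hh]
    ring
  · intro p hp hph
    refine DA_ge j d h l p hd0 ?_ hp hph
    rw [← hh, hc]
    ring
  · calc 2 ^ u * q' ≤ d * q' := Nat.mul_le_mul_right _ h1
      _ < 2 ^ (i + 1) * c * q' := Nat.mul_lt_mul_of_pos_right e2 hq'
      _ = 2 ^ (i + 1) * (c * q') := by ring
  · calc 2 ^ i * (c * q') = 2 ^ i * c * q' := by ring
      _ ≤ d * q' := Nat.mul_le_mul_right _ e1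
      _ < 2 ^ (u + 1) * q' := Nat.mul_lt_mul_of_pos_right h2 hq'

/-- DA -/
theorem DA (hTRN : TRN_stmt) (hPAR : PAR_stmt) (hP5 : P5_stmt) : DA_stmt := by
  intro b y u K i q s hb hy hs hK
  refine hTRN b y u i s (SIq b y u s K i q) (QP y (j0 K i) q) (fun q' => DH y u i (j0 K i) q q')
    hb (by omega) hs ?_ ?_
  · intro p hp
    unfold SIq SI SB at hp
    simp only [Finset.mem_filter] at hp
    exact hp.1.1.1
  · intro p hp
    unfold SIq SI SB at hp
    simp only [Finset.mem_filter] at hp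
    obtain ⟨⟨⟨hSU, hPm, -⟩, ⟨l, hl, hli⟩, hmin⟩, hq⟩ := hp
    obtain ⟨a1, a2, a3, a4, a5, a6⟩ := DA_SU b y u s p hSU
    obtain ⟨v1, -, -⟩ := DA_vv b p.1 p.2 a6
    have hd1 : 1 ≤ p.1 := le_trans Nat.one_le_two_pow a1
    have hd0 : p.1 ≠ 0 := by omega
    have hj := DA_j0 K i
    obtain ⟨q', hq', hco, r', hr', hG⟩ := hPAR y (j0 K i) p.1 p.2 (vv b p.1 p.2) (by omega) hd1 a5
      a4 v1 (fun x hx => hj.trans (hmin x hx))
    rw [hq] at hq'
    have hq1 : 1 ≤ q := by
      rw [← hq]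
      exact DA_pos _ _
    have hqR : Rgh y q := by
      rw [← hq]
      exact DA_Rprt y _ _ hd0 a5
    obtain ⟨b1, -, b3, -⟩ := (hP5 y (j0 K i) q hq1 hqR hy).2 q' hq'
    refine ⟨hPm, l, q', hl, hli, hq', hco, ⟨r', hr', hG⟩, b1, ?_⟩
    have := DA_mem y u i (j0 K i) p.1 l q' a1 a2 a5 hl.1 hl.2.1 hli hj b1 b3
    rw [hq] at this
    exact this

end Pool.Agent.T6
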