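import Pool.Agent.helper1.T6.DA
import Pool.Agent.helper1.T6.DC

set_option autoImplicit false

/-!
# T6, row DG
-/

namespace Pool.Agent.T6

open Finset Pool.Agent.helper3.FT

/-- the prime `l` of a block `≥ j` does not change the part in the blocks `< j` -/
theorem DG_prt (j d l : ℕ) (hd : d ≠ 0) (hl : l.Prime) (hld : l ∣ d) (hj : j ≤ Nat.log 2 l) :
    prt j (d / l) = prt j d := by
  obtain ⟨c, hc⟩ := hld
  have hc' : d / l = c := by
    rw [hc]
    exact Nat.mul_div_cancel_left _ hl.pos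
  have hc0 : c ≠ 0 := by
    rintro rfl
    apply hd
    rw [hc]
    simp
  rw [hc']
  apply Nat.eq_of_factorization_eq (Nat.one_le_iff_ne_zero.1 (DA_pos j c))
    (Nat.one_le_iff_ne_zero.1 (DA_pos j d))
  intro p
  rw [DA_fact, DA_fact, Finsupp.filter_apply, Finsupp.filter_apply]
  by_cases h : Nat.log 2 p < j
  · rw [if_pos h, if_pos h, hc, Nat.factorization_mul hl.ne_zero hc0]
    have hne : p ≠ l := by
      rintro rfl
      omega
    rw [Finsupp.add_apply, hl.factorization, Finsupp.single_apply, if_neg (Ne.symm hne), zero_add]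
  · rw [if_neg h, if_neg h]

open Classical in
/-- the numbers `H = d / l` -/
noncomputable def DG_D (y u i j : ℕ) : Finset ℕ :=
  (range (2 ^ (u + 1))).filter (fun H => Rgh y H ∧ 1 ≤ H ∧ 2 ^ u < 2 ^ (i + 1) * H ∧
    2 ^ i * H < 2 ^ (u + 1) ∧ (2 : ℝ) ^ ((i : ℝ) / 20) < prt j H)

open Classical in
theorem DG_mem (y u i j H : ℕ) : H ∈ DG_D y u i j ↔ H < 2 ^ (u + 1) ∧ Rgh y H ∧ 1 ≤ H ∧
    2 ^ u < 2 ^ (i + 1) * H ∧ 2 ^ i * H < 2 ^ (u + 1) ∧ (2 : ℝ) ^ ((i : ℝ) / 20) < prt j H := by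
  unfold DG_D
  rw [Finset.mem_filter, Finset.mem_range]

theorem DG_memd (y u i j d l : ℕ) (h1 : 2 ^ u ≤ d) (h2 : d < 2 ^ (u + 1)) (hR : Rgh y d)
    (hl : l.Prime) (hld : l ∣ d) (hli : Nat.log 2 l = i) (hji : j ≤ i)
    (hp : (2 : ℝ) ^ ((i : ℝ) / 20) < prt j d) : d / l ∈ DG_D y u i j := by
  have hd0 : d ≠ 0 := by
    have := Nat.one_le_two_pow (n := u)
    omega
  rw [DG_mem, DG_prt j d l hd0 hl hld (by omega)]
  obtain ⟨c, hc⟩ := hld
  have hc' : d / l = c := by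
    rw [hc]
    exact Nat.mul_div_cancel_left _ hl.pos
  have hc0 : c ≠ 0 := by
    rintro rfl
    apply hd0
    rw [hc]
    simp
  have hcd : c ∣ d := ⟨l, by rw [hc]; ring⟩
  have hlge : 2 ^ i ≤ l := by
    rw [← hli]
    exact Nat.pow_log_le_self 2 hl.ne_zero
  have hllt : l < 2 ^ (i + 1) := by
    rw [← hli]
    exact Nat.lt_pow_succ_log_self (by norm_num) l
  have hcpos : 0 < c := Nat.pos_of_ne_zero hc0
  have e1 : 2 ^ i * c ≤ d := by
    rw [hc]
    exact Nat.mul_le_mul_right _ hlge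
  have e2 : d < 2 ^ (i + 1) * c := by
    rw [hc]
    exact Nat.mul_lt_mul_of_pos_right hllt hcpos
  rw [hc']
  exact ⟨lt_of_le_of_lt (Nat.le_of_dvd (Nat.pos_of_ne_zero hd0) hcd) h2,
    fun p hp hpd => hR p hp (hpd.trans hcd), hcpos, lt_of_le_of_lt h1 e2, lt_of_le_of_lt e1 h2, hp⟩

/-- number of the `H` -/
theorem DG_card (y u i j : ℕ) (C : ℝ)
    (hP : ∀ Q : Finset ℕ, (∀ q ∈ Q, 1 ≤ q ∧ (2 : ℝ) ^ ((i : ℝ) / 50) < q ∧
      ∀ p : ℕ, p.Prime → p ∣ q → Nat.log 2 p < j) → ∑ q ∈ Q, (1 : ℝ) / q ≤ C / (i : ℝ) ^ 2) :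
    ((DG_D y u i j).card : ℝ) ≤ (2 : ℝ) ^ (u + 1) / 2 ^ i * (C / (i : ℝ) ^ 2) := by
  classical
  set Q : Finset ℕ := (DG_D y u i j).image (prt j) with hQ
  have h1 : ∑ q ∈ Q, (1 : ℝ) / q ≤ C / (i : ℝ) ^ 2 := by
    apply hP
    intro q hq
    rw [hQ, Finset.mem_image] at hq
    obtain ⟨H, hH, rfl⟩ := hq
    rw [DG_mem] at hH
    refine ⟨DA_pos _ _, lt_of_le_of_lt ?_ hH.2.2.2.2.2, fun p hp hpd => DA_lt j H p hp hpd⟩
    apply Real.rpow_le_rpow_of_exponent_le (by norm_num)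
    have : (0 : ℝ) ≤ i := Nat.cast_nonneg i
    linarith
  have h2 : ((DG_D y u i j).card : ℝ) = ∑ q ∈ Q, (((DG_D y u i j).filter
      (fun H => prt j H = q)).card : ℝ) := by
    rw [Finset.card_eq_sum_card_image (prt j) (DG_D y u i j)]
    push_cast
    rfl
  rw [h2]
  calc ∑ q ∈ Q, (((DG_D y u i j).filter (fun H => prt j H = q)).card : ℝ)
      ≤ ∑ q ∈ Q, (2 : ℝ) ^ (u + 1) / 2 ^ i * ((1 : ℝ) / q) := by
        apply Finset.sum_le_sum
        intro q hq
        rw [hQ, Finset.mem_image] at hq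
        obtain ⟨H₀, hH₀, hq⟩ := hq
        have hq1 : 1 ≤ q := by
          rw [← hq]
          exact DA_pos _ _
        have h3 : (DG_D y u i j).filter (fun H => prt j H = q) ⊆
            (Finset.Ioc 0 (2 ^ (u + 1) / (2 ^ i * q))).image (fun c => q * c) := by
          intro H hH
          rw [Finset.mem_filter, DG_mem] at hH
          obtain ⟨⟨-, -, h4, -, h5, -⟩, h6⟩ := hH
          have h7 : q ∣ H := by
            rw [← h6]
            exact DA_dvd j H (by omega)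
          obtain ⟨c, hc⟩ := h7
          rw [Finset.mem_image]
          refine ⟨c, ?_, hc.symm⟩
          rw [Finset.mem_Ioc]
          constructor
          · rcases Nat.eq_zero_or_pos c with h | h
            · rw [h, Nat.mul_zero] at hc
              omega
            · exact h
          · rw [Nat.le_div_iff_mul_le (by positivity)]
            calc c * (2 ^ i * q) = 2 ^ i * (q * c) := by ring
              _ = 2 ^ i * H := by rw [hc]
              _ ≤ 2 ^ (u + 1) := h5.le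
        have h4 : ((DG_D y u i j).filter (fun H => prt j H = q)).card ≤
            2 ^ (u + 1) / (2 ^ i * q) := by
          refine (Finset.card_le_card h3).trans (Finset.card_image_le.trans ?_)
          rw [Nat.card_Ioc, Nat.sub_zero]
        have h5 : (((DG_D y u i j).filter (fun H => prt j H = q)).card : ℝ) ≤
            ((2 ^ (u + 1) / (2 ^ i * q) : ℕ) : ℝ) := by exact_mod_cast h4
        refine h5.trans (Nat.cast_div_le.trans (le_of_eq ?_))
        push_cast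
        field_simp
    _ = (2 : ℝ) ^ (u + 1) / 2 ^ i * ∑ q ∈ Q, (1 : ℝ) / q := by rw [Finset.mul_sum]
    _ ≤ _ := mul_le_mul_of_nonneg_left h1 (by positivity)

/-- the main term -/
theorem DG_main (y u i j : ℕ) (s C : ℝ) (hs : 1 ≤ s) (hC : 0 ≤ C)
    (hP : ∀ Q : Finset ℕ, (∀ q ∈ Q, 1 ≤ q ∧ (2 : ℝ) ^ ((i : ℝ) / 50) < q ∧
      ∀ p : ℕ, p.Prime → p ∣ q → Nat.log 2 p < j) → ∑ q ∈ Q, (1 : ℝ) / q ≤ C / (i : ℝ) ^ 2) :
    (∑ H ∈ DG_D y u i j, ∑ r ∈ (range H).filter (fun r => Nat.Coprime r H),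
      14641 * (√(2 ^ u) / s ^ 2) ^ 4 / (H : ℝ) ^ 2) * s ^ 7 ≤ 58564 * C * 4 ^ u / (i : ℝ) ^ 2 := by
  have hs0 : (0 : ℝ) < s := by linarith
  have hV : (√((2 : ℝ) ^ u) / s ^ 2) ^ 4 = 4 ^ u / s ^ 8 := by
    rw [div_pow]
    have h1 : √((2 : ℝ) ^ u) ^ 4 = 4 ^ u := by
      have : √((2 : ℝ) ^ u) ^ 2 = 2 ^ u := Real.sq_sqrt (by positivity)
      calc √((2 : ℝ) ^ u) ^ 4 = (√((2 : ℝ) ^ u) ^ 2) ^ 2 := by ring
        _ = (2 ^ u) ^ 2 := by rw [this]
        _ = 4 ^ u := by rw [← pow_mul, mul_comm, pow_mul]; norm_num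
    rw [h1]
    ring
  rw [hV]
  have h1 : ∀ H ∈ DG_D y u i j, ∑ r ∈ (range H).filter (fun r => Nat.Coprime r H),
      14641 * (4 ^ u / s ^ 8) / (H : ℝ) ^ 2 ≤ 14641 * (4 ^ u / s ^ 8) * (2 ^ (i + 1) / 2 ^ u) := by
    intro H hH
    rw [DG_mem] at hH
    obtain ⟨-, -, h2, h3, -, -⟩ := hH
    have hH0 : (0 : ℝ) < H := by exact_mod_cast h2
    rw [Finset.sum_const, nsmul_eq_mul]
    have h4 : (((range H).filter (fun r => Nat.Coprime r H)).card : ℝ) ≤ H := by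
      have := Finset.card_filter_le (range H) (fun r => Nat.Coprime r H)
      rw [Finset.card_range] at this
      exact_mod_cast this
    have h5 : (1 : ℝ) / H ≤ 2 ^ (i + 1) / 2 ^ u := by
      rw [div_le_div_iff₀ hH0 (by positivity), one_mul]
      have : (2 : ℝ) ^ u < 2 ^ (i + 1) * H := by exact_mod_cast h3
      exact this.le
    calc _ ≤ (H : ℝ) * (14641 * (4 ^ u / s ^ 8) / (H : ℝ) ^ 2) :=
          mul_le_mul_of_nonneg_right h4 (by positivity)
      _ = 14641 * (4 ^ u / s ^ 8) * (1 / H) := by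
          field_simp
      _ ≤ _ := mul_le_mul_of_nonneg_left h5 (by positivity)
  have h2 := Finset.sum_le_sum h1
  rw [Finset.sum_const, nsmul_eq_mul] at h2
  have h3 := DG_card y u i j C hP
  calc _ ≤ ((DG_D y u i j).card : ℝ) * (14641 * (4 ^ u / s ^ 8) * (2 ^ (i + 1) / 2 ^ u)) * s ^ 7 :=
        mul_le_mul_of_nonneg_right h2 (by positivity)
    _ ≤ ((2 : ℝ) ^ (u + 1) / 2 ^ i * (C / (i : ℝ) ^ 2)) *
          (14641 * (4 ^ u / s ^ 8) * (2 ^ (i + 1) / 2 ^ u)) * s ^ 7 := by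
        apply mul_le_mul_of_nonneg_right _ (by positivity)
        exact mul_le_mul_of_nonneg_right h3 (by positivity)
    _ = 58564 * C * 4 ^ u / (i : ℝ) ^ 2 * (s ^ 7 / s ^ 8) := by
        rw [pow_succ (2 : ℝ) u, pow_succ (2 : ℝ) i]
        field_simp
        ring
    _ ≤ 58564 * C * 4 ^ u / (i : ℝ) ^ 2 * 1 := by
        apply mul_le_mul_of_nonneg_left _ (by positivity)
        rw [div_le_one (by positivity)]
        exact pow_le_pow_right₀ hs (by norm_num)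
    _ = _ := by ring

open Classical in
/-- DG -/
theorem DG (hTRN : TRN_stmt) (hNBF : NBF_stmt) (hP6 : P6_stmt) (hC6 : C6_stmt) (hZ9 : Z9_stmt) :
    DG_stmt := by
  obtain ⟨K₀, hK₀, h6⟩ := hP6 2
  refine ⟨K₀, hK₀, ?_⟩
  intro K hK
  obtain ⟨C₀, hC₀, h6⟩ := h6 K hK
  obtain ⟨C₁, hC₁, hE⟩ := DC_gen hC6 hZ9
  refine ⟨3 * (58564 * C₀) + 3 * C₁, by linarith, ?_⟩
  intro b y u i s Φ hM hy hP hI hi hiu
  have hb := hM.b1
  have hs := hM.s1
  have hs0 : (0 : ℝ) < s := by linarith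
  have hΦ : 0 ≤ Φ u := by
    have := hP.two u
    linarith
  have hT := hTRN b y u i s ((SI b y u s i).filter
    (fun p => ¬ (prt (j0 K i) p.1 : ℝ) ≤ (2 : ℝ) ^ ((i : ℝ) / 20))) {1}
    (fun _ => DG_D y u i (j0 K i)) hb (by omega) hs ?_ ?_
  · rw [Finset.sum_singleton] at hT
    have hN : ∑ H ∈ DG_D y u i (j0 K i), ∑ r ∈ (range H).filter (fun r => Nat.Coprime r H),
        NBf b (√(2 ^ u) / s ^ 2) H r i ≤
        ∑ H ∈ DG_D y u i (j0 K i), ∑ r ∈ (range H).filter (fun r => Nat.Coprime r H),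
          14641 * (√(2 ^ u) / s ^ 2) ^ 4 / (H : ℝ) ^ 2 +
        ∑ H ∈ DG_D y u i (j0 K i), ∑ r ∈ (range H).filter (fun r => Nat.Coprime r H),
        ((if Gd b H r ∧ lamb b H r ≤ √(2 ^ u) / s ^ 2 then
            343 * (√(2 ^ u) / s ^ 2 / lamb b H r) ^ 3 else 0) +
          (if ¬ Gd b H r ∧ lamb b H r ≤ √(2 ^ u) / s ^ 2 then 343 * 8 ^ (i + 1) else 0)) := by
      rw [← Finset.sum_add_distrib]
      apply Finset.sum_le_sum
      intro H hH
      rw [← Finset.sum_add_distrib]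
      apply Finset.sum_le_sum
      intro r _
      rw [DG_mem] at hH
      obtain ⟨-, hR, h1, -, -, -⟩ := hH
      have hco : Nat.Coprime H 5 := by
        rw [Nat.coprime_comm]
        refine (Nat.Prime.coprime_iff_not_dvd (by norm_num)).2 ?_
        intro h
        have := hR 5 (by norm_num) h
        omega
      have := hNBF b (√(2 ^ u) / s ^ 2) H r i hb h1 hco (by positivity)
      linarith
    have hm := DG_main y u i (j0 K i) s C₀ hs (by linarith) (fun Q hQ => h6 i Q (by omega) hQ)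
    have he := hE b y u i 1 s Φ (DG_D y u i (j0 K i)) hM (by omega) hP hI hi hiu (by
      push_cast
      apply Real.one_le_rpow (by norm_num)
      positivity) (fun H hH => by
        rw [DG_mem] at hH
        exact ⟨hH.2.1, hH.2.2.1, by rw [mul_one]; exact hH.2.2.2.2.1⟩)
    have hs7 : 0 ≤ s ^ 7 := by positivity
    have h1 := mul_le_mul_of_nonneg_right (hT.trans (mul_le_mul_of_nonneg_left hN (by norm_num)))
      hs7
    refine h1.trans ?_
    rw [mul_assoc, add_mul]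
    have k1 : 0 ≤ 3 * C₁ * 4 ^ u / (i : ℝ) ^ 2 := by positivity
    have k2 : 0 ≤ 3 * (58564 * C₀) * (Φ u * 4 ^ u * (2 : ℝ) ^ (-(47 * (i : ℝ) / 250)) +
        8 ^ i * (2 : ℝ) ^ (158 * (u : ℝ) / 100)) := by positivity
    calc _ ≤ 3 * (58564 * C₀ * 4 ^ u / (i : ℝ) ^ 2 +
          (C₁ * Φ u * 4 ^ u * (2 : ℝ) ^ (-(47 * (i : ℝ) / 250)) +
            C₁ * 8 ^ i * (2 : ℝ) ^ (158 * (u : ℝ) / 100))) :=
          mul_le_mul_of_nonneg_left (add_le_add hm he) (by norm_num)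
      _ ≤ _ := by
          have e : (3 * (58564 * C₀) + 3 * C₁) * 4 ^ u / (i : ℝ) ^ 2 =
              3 * (58564 * C₀ * 4 ^ u / (i : ℝ) ^ 2) + 3 * C₁ * 4 ^ u / (i : ℝ) ^ 2 := by ring
          rw [e]
          linarith
  · intro p hp
    unfold SI SB at hp
    simp only [Finset.mem_filter] at hp
    exact hp.1.1.1
  · intro p hp
    unfold SI SB at hp
    simp only [Finset.mem_filter] at hp
    obtain ⟨⟨⟨hSU, hPm, -⟩, ⟨l, hl, hli⟩, hmin⟩, hq⟩ := hp
    obtain ⟨a1, a2, a3, a4, a5, a6⟩ := DA_SU b y u s p hSU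
    refine ⟨hPm, l, 1, hl, hli, Finset.mem_singleton_self _, Nat.coprime_one_left _,
      ⟨0, Nat.coprime_one_right _, ⟨by simp, by simp⟩⟩, le_refl _, ?_⟩
    rw [Nat.mul_one]
    exact DG_memd y u i (j0 K i) p.1 l a1 a2 a5 hl.1 hl.2.1 hli (DA_j0 K i) (not_le.1 hq)

end Pool.Agent.T6
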